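import Pool.Agent.H241.PST.Main

/-!
# MP_1698af_al: extending a primitive element to a basis supported on a subtree

Positive answer to Q1 (for every coefficient field `K`, every free group, every subtree `T`,
finite or infinite, and every right ideal, finitely generated or not).
-/

set_option autoImplicit false

namespace Pool.Agent.Results.MP_1698af_al.PrimitiveOnSubtree

/-- The right Cayley graph of the free group on `B`: the vertices are the group elements, and
there is an edge between `g` and `g * b` for every `g` and every basis element `b`. -/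
def cayley (B : Type*) : SimpleGraph (FreeGroup B) where
  Adj x y := ∃ b : B, y = x * FreeGroup.of b ∨ x = y * FreeGroup.of b
  symm := ⟨by
    rintro x y ⟨b, h | h⟩
    · exact ⟨b, Or.inr h⟩
    · exact ⟨b, Or.inl h⟩⟩
  loopless := ⟨by
    rintro x ⟨b, h | h⟩
    · simp at h
    · simp at h⟩

/-- `T` is the vertex set of a subtree, that is of a connected subgraph, of the Cayley tree. -/
def IsSubtree {B : Type*} (T : Set (FreeGroup B)) : Prop :=
  ((cayley B).induce T).Preconnected

/-- The element `a` of the group algebra is supported on `T`. -/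
def SupportedOn {K B : Type*} [Field K] (a : MonoidAlgebra K (FreeGroup B))
    (T : Set (FreeGroup B)) : Prop :=
  ∀ g : FreeGroup B, a.coeff g ≠ 0 → g ∈ T

/-- Right ideals of the group algebra `K[F]`, `F` free on `B`. -/
abbrev RightIdeal (K B : Type*) [Field K] :=
  Submodule (MonoidAlgebra K (FreeGroup B))ᵐᵒᵖ (MonoidAlgebra K (FreeGroup B))

/-- `I ≤_T K[F]`: the right ideal `I` is generated by its elements supported on `T`. -/
def GeneratedOn {K B : Type*} [Field K] (I : RightIdeal K B) (T : Set (FreeGroup B)) : Prop :=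
  Submodule.span (MonoidAlgebra K (FreeGroup B))ᵐᵒᵖ {a | a ∈ I ∧ SupportedOn a T} = I

/-- `X` is a basis (free generating set) of the right ideal `I`. -/
def IsBasisOf {K B : Type*} [Field K] (X : Set (MonoidAlgebra K (FreeGroup B)))
    (I : RightIdeal K B) : Prop :=
  LinearIndepOn (MonoidAlgebra K (FreeGroup B))ᵐᵒᵖ id X ∧
    Submodule.span (MonoidAlgebra K (FreeGroup B))ᵐᵒᵖ X = I

/-- `f` is primitive in `I`: it belongs to some basis of `I`. -/
def Primitive {K B : Type*} [Field K] (f : MonoidAlgebra K (FreeGroup B))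
    (I : RightIdeal K B) : Prop :=
  ∃ X : Set (MonoidAlgebra K (FreeGroup B)), f ∈ X ∧ IsBasisOf X I

open Pool.Agent.H241.PST in
lemma conn_of_subtree {B : Type*} {T : Set (FreeGroup B)} (hT : IsSubtree T) : Conn T := by
  have key : ∀ (x y : T), ((cayley B).induce T).Walk x y →
      Relation.ReflTransGen (fun a b => b ∈ T ∧ Adj' a b) (x : FreeGroup B) y := by
    intro x y p
    induction p with
    | nil => exact Relation.ReflTransGen.refl
    | @cons u v w h p ih =>
      refine Relation.ReflTransGen.head ⟨v.2, ?_⟩ ih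
      have h' : (cayley B).Adj u.1 v.1 := h
      obtain ⟨b, hb | hb⟩ := h'
      · exact ⟨(b, true), hb⟩
      · refine ⟨(b, false), ?_⟩
        have : ltr (b, false) = (FreeGroup.of b)⁻¹ := by
          have := ltr_linv (b, true)
          exact this
        rw [this, hb]; group
  intro x hx y hy
  obtain ⟨p⟩ := hT ⟨x, hx⟩ ⟨y, hy⟩
  exact key _ _ p

open Pool.Agent.H241.PST in
/-- **Positive answer to Q1.** Let `T` be a subtree of the right Cayley graph of the free group
`F` on `B`, let `I` be a right ideal of `K[F]` generated by its elements supported on `T`, and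
let `f ∈ I` be supported on `T` and primitive in `I`. Then `I` has a basis that contains `f` and
is supported on `T`. -/
theorem result (K : Type*) [Field K] (B : Type*) (T : Set (FreeGroup B)) (hT : IsSubtree T)
    (I : RightIdeal K B) (hI : GeneratedOn I T) (f : MonoidAlgebra K (FreeGroup B))
    (hfI : f ∈ I) (hfT : SupportedOn f T) (hf : Primitive f I) :
    ∃ Y : Set (MonoidAlgebra K (FreeGroup B)),
      IsBasisOf Y I ∧ f ∈ Y ∧ ∀ y ∈ Y, SupportedOn y T := by
  classical
  obtain ⟨X, hfX, hXi, hXs⟩ := hf
  have hXI : X ⊆ I := by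
    rw [← hXs]; exact Submodule.subset_span
  -- transfer to the module `I`
  set X' : Set I := {v | (v : MonoidAlgebra K (FreeGroup B)) ∈ X} with hX'
  have himg : Subtype.val '' X' = X := by
    ext a
    constructor
    · rintro ⟨v, hv, rfl⟩; exact hv
    · intro ha; exact ⟨⟨a, hXI ha⟩, ha, rfl⟩
  have h1 : LinearIndepOn (MonoidAlgebra K (FreeGroup B))ᵐᵒᵖ id X' := by
    apply LinearIndependent.of_comp I.subtype
    have hc := hXi.comp (fun v : X' => (⟨v.1.1, v.2⟩ : X)) (by
      intro v w h
      apply Subtype.ext
      apply Subtype.ext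
      exact congrArg (fun z : X => z.1) h)
    exact hc
  have htop : ∀ Z : Set I, Submodule.span (MonoidAlgebra K (FreeGroup B))ᵐᵒᵖ
      (Subtype.val '' Z : Set (MonoidAlgebra K (FreeGroup B))) = I →
      Submodule.span (MonoidAlgebra K (FreeGroup B))ᵐᵒᵖ Z = ⊤ := by
    intro Z hZ
    apply Submodule.map_injective_of_injective (f := I.subtype) Subtype.val_injective
    rw [Submodule.map_span, Submodule.map_subtype_top]
    exact hZ
  have h2 : Submodule.span (MonoidAlgebra K (FreeGroup B))ᵐᵒᵖ X' = ⊤ := by
    apply htop; rw [himg, hXs]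
  have h3 : Submodule.span (MonoidAlgebra K (FreeGroup B))ᵐᵒᵖ (VS I T : Set I) = ⊤ := by
    apply htop
    have : (Subtype.val '' (VS I T : Set I) : Set (MonoidAlgebra K (FreeGroup B))) =
        {a | a ∈ I ∧ SupportedOn a T} := by
      ext a
      constructor
      · rintro ⟨v, hv, rfl⟩; exact ⟨v.2, hv⟩
      · rintro ⟨ha, haT⟩; exact ⟨⟨a, ha⟩, haT, rfl⟩
    rw [this]
    exact hI
  obtain ⟨Y, hY1, hY2, hY3, hY4⟩ := main (K := K) I (conn_of_subtree hT) h3
    (f := ⟨f, hfI⟩) hfT h1 h2 hfX
  refine ⟨Subtype.val '' Y, ⟨?_, ?_⟩, ⟨⟨f, hfI⟩, hY1, rfl⟩, ?_⟩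
  · have h4 : LinearIndepOn (MonoidAlgebra K (FreeGroup B))ᵐᵒᵖ
        (fun v : I => (v : MonoidAlgebra K (FreeGroup B))) Y := by
      have := LinearIndependent.map' hY3 I.subtype (Submodule.ker_subtype I)
      exact this
    exact h4.id_image
  · have := congrArg (Submodule.map I.subtype) hY4
    rw [Submodule.map_span, Submodule.map_subtype_top] at this
    exact this
  · rintro _ ⟨v, hv, rfl⟩
    exact hY2 hv

end Pool.Agent.Results.MP_1698af_al.PrimitiveOnSubtree
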